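import Pool.Agent.X225.Dp.Ultra

/-!
# Finite down-posets are not first-order definable

For a set `X` with a shift `s` and an involution `t` commuting with it let `P(X)` be the poset with a
bottom, points `y x`, points `z x` above `y x, y (s x), y (s² x)`, and points `d x` above `z x` and
`z (t x)`.  A down-function that fixes `z x` fixes `z (s x)`.  If `t` is a power of the shift (the
Moebius ladder `ℤ / 2n`, `s = 1`, `t = n`) then `P(X)` is not a down-poset, and if the shift does not mix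
`x` and `t x` (the annulus `ℤ / n × ℤ / 2`) then it is.  The ultraproducts of the two families are
isomorphic, because they are given by free actions of `ℤ × ℤ / 2` on sets of the same uncountable size.
-/

universe u v

namespace Pool.Agent.Results.MP_bbe6b0_lc.NotFirstOrder

open FirstOrder Filter

/-- A down-poset: a poset isomorphic to `(C, ≤)` for an action of a semilattice with identity `S`
(written as a commutative idempotent monoid) on the set `C`, where `c ≤ d` iff `d s = c` for some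
`s ∈ S`. -/
def IsDownPoset (P : Type u) [PartialOrder P] : Prop :=
  ∃ (S : Type v) (_ : CommMonoid S) (C : Type u) (act : C → S → C),
    (∀ s : S, s * s = s) ∧ (∀ c s t, act c (s * t) = act (act c s) t) ∧ (∀ c, act c 1 = c) ∧
      ∃ e : P ≃ C, ∀ x y : P, x ≤ y ↔ ∃ s, act (e y) s = e x

/-- the first-order sentence `φ` in the language with one binary relation symbol holds in the poset -/
def Holds (P : Type u) [PartialOrder P] (φ : Language.order.Sentence) : Prop :=
  @Language.Sentence.Realize Language.order P (Language.orderStructure P) φ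

/-! ### The characterisation by down-functions -/

theorem enough_of_isDownPoset (P : Type u) [PartialOrder P] (h : IsDownPoset.{u, v} P) :
    X225.Dp.Enough P := by
  obtain ⟨S, _, C, act, hidem, hact, hone, e, he⟩ := h
  intro c d hcd
  obtain ⟨s, hs⟩ := (he c d).1 hcd
  have hee : ∀ x s, e (e.symm (act (e x) s)) = act (e x) s := fun x s => e.apply_symm_apply _
  refine ⟨fun x => e.symm (act (e x) s), ⟨fun x => ?_, fun x y hxy => ?_, fun x y hxy => ?_⟩, ?_⟩
  · exact (he _ _).2 ⟨s, (hee x s).symm⟩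
  · obtain ⟨t, ht⟩ := (he _ _).1 hxy
    refine (he _ _).2 ⟨t, ?_⟩
    rw [hee, hee, ← hact, mul_comm, hact, ht]
  · obtain ⟨t, ht⟩ := (he _ _).1 hxy
    rw [hee, ← hact] at ht
    apply e.injective
    rw [hee, ← ht, ← hact, mul_assoc, mul_comm t s, ← mul_assoc, hidem]
  · apply e.injective
    rw [hee]
    exact hs

theorem isDown_comp {P : Type u} [PartialOrder P] {f g : P → P} (hf : X225.Dp.IsDown f)
    (hg : X225.Dp.IsDown g) : X225.Dp.IsDown (f ∘ g) := by
  refine ⟨fun c => (hf.le _).trans (hg.le _), fun c d h => hf.mono _ _ (hg.mono _ _ h),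
    fun c d h => ?_⟩
  have h1 : f c = c := hf.fixed c (g d) h
  have h2 : g c = c := hg.fixed c d (h.trans (hf.le _))
  change f (g c) = c
  rw [h2, h1]

theorem isDown_comm {P : Type u} [PartialOrder P] {f g : P → P} (hf : X225.Dp.IsDown f)
    (hg : X225.Dp.IsDown g) : f ∘ g = g ∘ f := by
  have key : ∀ {f g : P → P}, X225.Dp.IsDown f → X225.Dp.IsDown g → ∀ x, f (g x) ≤ g (f x) := by
    intro f g hf hg x
    have h1 : f (f (g x)) = f (g x) := hf.fixed _ (g x) le_rfl
    have h2 : g (f (g x)) = f (g x) := hg.fixed _ x (hf.le _)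
    have h3 : f (g x) ≤ f x := hf.mono _ _ (hg.le x)
    have h4 := hg.mono _ _ h3
    rwa [h2] at h4
  funext x
  exact le_antisymm (key hf hg x) (key hg hf x)

theorem isDownPoset_of_enough (P : Type) [PartialOrder P] (h : X225.Dp.Enough P) :
    IsDownPoset.{0, v} P := by
  let S0 : Type := {f : P → P // X225.Dp.IsDown f}
  let m : CommMonoid S0 :=
    { mul := fun f g => ⟨f.1 ∘ g.1, isDown_comp f.2 g.2⟩
      mul_assoc := fun f g h => rfl
      one := ⟨id, ⟨fun _ => le_rfl, fun _ _ h => h, fun _ _ _ => rfl⟩⟩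
      one_mul := fun f => rfl
      mul_one := fun f => rfl
      mul_comm := fun f g => Subtype.ext (isDown_comm f.2 g.2) }
  refine ⟨ULift.{v} S0, inferInstance, P, fun c s => s.down.1 c, ?_, ?_, ?_, Equiv.refl P, ?_⟩
  · rintro ⟨f, hf⟩
    apply ULift.ext
    apply Subtype.ext
    change f ∘ f = f
    funext x
    exact hf.fixed _ x le_rfl
  · rintro c ⟨f⟩ ⟨g⟩
    change f.1 (g.1 c) = g.1 (f.1 c)
    exact congrFun (isDown_comm f.2 g.2) c
  · intro c
    rfl
  · intro x y
    constructor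
    · intro hxy
      obtain ⟨f, hf, hfy⟩ := h x y hxy
      exact ⟨⟨⟨f, hf⟩⟩, hfy⟩
    · rintro ⟨⟨f⟩, hf⟩
      have h1 : f.1 y = x := hf
      rw [← h1]
      exact f.2.le y

/-! ### The two families -/

/-- the annulus -/
def Ann (n : ℕ) : Type := ZMod (n + 3) × ZMod 2

/-- the Moebius ladder -/
abbrev Mob (n : ℕ) : Type := ZMod (2 * (n + 3))

instance (n : ℕ) : AddCommGroup (Ann n) := inferInstanceAs (AddCommGroup (ZMod (n + 3) × ZMod 2))
instance (n : ℕ) : Finite (Ann n) := inferInstanceAs (Finite (ZMod (n + 3) × ZMod 2))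
instance (n : ℕ) : Finite (Mob n) := by
  have : NeZero (2 * (n + 3)) := ⟨by omega⟩
  exact inferInstanceAs (Finite (ZMod (2 * (n + 3))))
instance (n : ℕ) : Nonempty (Ann n) := ⟨0⟩
instance (n : ℕ) : Nonempty (Mob n) := ⟨0⟩

/-- the action on the annulus -/
def homA (n : ℕ) : X225.Dp.G →+ Ann n :=
  AddMonoidHom.prodMap (Int.castAddHom (ZMod (n + 3))) (AddMonoidHom.id (ZMod 2))

/-- the half turn -/
def half (n : ℕ) : ZMod 2 →+ Mob n :=
  ZMod.lift 2 ⟨zmultiplesHom (ZMod (2 * (n + 3))) ((n + 3 : ℕ) : ZMod (2 * (n + 3))), by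
    change (((2 : ℕ) : ℤ)) • (((n + 3 : ℕ) : ZMod (2 * (n + 3)))) = 0
    rw [natCast_zsmul, nsmul_eq_mul, ← Nat.cast_mul, ZMod.natCast_self]⟩

/-- the action on the Moebius ladder -/
def homM (n : ℕ) : X225.Dp.G →+ Mob n :=
  AddMonoidHom.coprod (Int.castAddHom (ZMod (2 * (n + 3)))) (half n)

instance (n : ℕ) : AddAction X225.Dp.G (Ann n) := AddAction.compHom (Ann n) (homA n)
instance (n : ℕ) : AddAction X225.Dp.G (Mob n) := AddAction.compHom (Mob n) (homM n)

theorem vadd_ann (n : ℕ) (g : X225.Dp.G) (x : Ann n) : g +ᵥ x = homA n g + x := rfl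
theorem vadd_mob (n : ℕ) (g : X225.Dp.G) (x : Mob n) : g +ᵥ x = homM n g + x := rfl

theorem half_one (n : ℕ) : half n 1 = ((n + 3 : ℕ) : ZMod (2 * (n + 3))) := by
  have h := ZMod.lift_coe 2 (⟨zmultiplesHom (ZMod (2 * (n + 3))) ((n + 3 : ℕ) :
    ZMod (2 * (n + 3))), by
      change (((2 : ℕ) : ℤ)) • (((n + 3 : ℕ) : ZMod (2 * (n + 3)))) = 0
      rw [natCast_zsmul, nsmul_eq_mul, ← Nat.cast_mul, ZMod.natCast_self]⟩ :
        {f : ℤ →+ ZMod (2 * (n + 3)) // f ((2 : ℕ) : ℤ) = 0}) 1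
  rw [Int.cast_one] at h
  refine h.trans ?_
  change (1 : ℤ) • (((n + 3 : ℕ) : ZMod (2 * (n + 3)))) = _
  rw [one_zsmul]

theorem homM_apply (n : ℕ) (a : ℤ) : homM n (a, 0) = (a : ZMod (2 * (n + 3))) := by
  change (a : ZMod (2 * (n + 3))) + half n 0 = a
  rw [map_zero]
  exact add_zero (a : ZMod (2 * (n + 3)))

theorem homM_apply_one (n : ℕ) (a : ℤ) :
    homM n (a, 1) = ((a + ((n + 3 : ℕ) : ℤ) : ℤ) : ZMod (2 * (n + 3))) := by
  change (a : ZMod (2 * (n + 3))) + half n 1 = _
  rw [half_one, Int.cast_add, Int.cast_natCast]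

theorem free_ann (g : X225.Dp.G) (hg : g ≠ 0) : ∀ᶠ n in atTop, ∀ x : Ann n, g +ᵥ x ≠ x := by
  obtain ⟨a, b⟩ := g
  filter_upwards [eventually_gt_atTop a.natAbs] with n hn x hx
  rw [vadd_ann, add_eq_right] at hx
  have h1 : (a : ZMod (n + 3)) = 0 := congrArg Prod.fst hx
  have h2 : b = 0 := congrArg Prod.snd hx
  apply hg
  rw [ZMod.intCast_zmod_eq_zero_iff_dvd] at h1
  have h3 : a = 0 := Int.eq_zero_of_abs_lt_dvd h1 (by
    rw [Int.abs_eq_natAbs]
    exact_mod_cast (by omega : a.natAbs < n + 3))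
  rw [h2, h3]
  rfl

theorem free_mob (g : X225.Dp.G) (hg : g ≠ 0) : ∀ᶠ n in atTop, ∀ x : Mob n, g +ᵥ x ≠ x := by
  obtain ⟨a, b⟩ := g
  filter_upwards [eventually_gt_atTop a.natAbs] with n hn x hx
  rw [vadd_mob, add_eq_right] at hx
  have hb : ∀ b : ZMod 2, b = 0 ∨ b = 1 := by decide
  rcases hb b with rfl | rfl
  · have h1 : (a : ZMod (2 * (n + 3))) = 0 := (homM_apply n a).symm.trans hx
    rw [ZMod.intCast_zmod_eq_zero_iff_dvd] at h1
    have h3 : a = 0 := Int.eq_zero_of_abs_lt_dvd h1 (by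
      rw [Int.abs_eq_natAbs]
      exact_mod_cast (by omega : a.natAbs < 2 * (n + 3)))
    apply hg
    rw [h3]
    rfl
  · have h1 : ((a + ((n + 3 : ℕ) : ℤ) : ℤ) : ZMod (2 * (n + 3))) = 0 :=
      (homM_apply_one n a).symm.trans hx
    rw [ZMod.intCast_zmod_eq_zero_iff_dvd] at h1
    have h3 : a + ((n + 3 : ℕ) : ℤ) = 0 := Int.eq_zero_of_abs_lt_dvd h1 (by
      rw [abs_lt]
      omega)
    omega

/-- the colors of the annulus -/
def col (n : ℕ) (x : Ann n) : Bool := decide (x.2 = 0)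

theorem enough_ann (n : ℕ) : X225.Dp.Enough (X225.Dp.Pt (Ann n)) := by
  refine X225.Dp.enough_of_coloring (col n) (fun x => ?_) fun x => ?_
  · have h : (X225.Dp.sh x).2 = x.2 := by
      change (0 : ZMod 2) + x.2 = x.2
      rw [zero_add]
    unfold col
    rw [h]
  · have h : (X225.Dp.ta x).2 = 1 + x.2 := rfl
    unfold col
    rw [h]
    generalize x.2 = b
    revert b
    decide

theorem sh_mob (n : ℕ) (x : Mob n) : X225.Dp.sh x = ((1 : ℤ) : ZMod (2 * (n + 3))) + x := by
  rw [← homM_apply]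
  rfl

theorem iter_sh (n : ℕ) (k : ℕ) : (X225.Dp.sh^[k] (0 : Mob n)) = ((k : ℕ) : ZMod (2 * (n + 3))) := by
  induction k with
  | zero => exact (Nat.cast_zero (R := ZMod (2 * (n + 3)))).symm
  | succ k ih =>
    rw [Function.iterate_succ_apply', ih, sh_mob, Nat.cast_succ, Int.cast_one]
    exact add_comm (1 : ZMod (2 * (n + 3))) _

theorem ta_mob (n : ℕ) : X225.Dp.ta (0 : Mob n) = ((n + 3 : ℕ) : ZMod (2 * (n + 3))) := by
  have h : X225.Dp.ta (0 : Mob n) = homM n (0, 1) + 0 := rfl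
  rw [h, add_zero, homM_apply_one, zero_add, Int.cast_natCast]

theorem not_enough_mob (n : ℕ) : ¬ X225.Dp.Enough (X225.Dp.Pt (Mob n)) := by
  refine X225.Dp.not_enough (0 : Mob n) (n + 3) ?_ ?_ ?_
  · rw [iter_sh, ta_mob]
  · rw [ta_mob]
    intro h
    have h1 : ((n + 3 : ℕ) : ZMod (2 * (n + 3))) = 0 := h
    rw [ZMod.natCast_eq_zero_iff] at h1
    have := Nat.le_of_dvd (by omega) h1
    omega
  · intro w hw
    rw [sh_mob] at hw
    have h1 : ((1 : ℤ) : ZMod (2 * (n + 3))) = 0 := by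
      have h2 : (((1 : ℤ) : ZMod (2 * (n + 3))) : Mob n) + w = w := hw
      exact add_eq_right.1 h2
    rw [ZMod.intCast_zmod_eq_zero_iff_dvd] at h1
    have := Int.le_of_dvd (by omega) h1
    omega

theorem card_ann (n : ℕ) : n < Nat.card (Ann n) := by
  have h : Nat.card (Ann n) = (n + 3) * 2 := by
    change Nat.card (ZMod (n + 3) × ZMod 2) = _
    rw [Nat.card_prod, Nat.card_zmod, Nat.card_zmod]
  rw [h]
  omega

theorem card_mob (n : ℕ) : Nat.card (Mob n) = (n + 3) * 2 := by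
  change Nat.card (ZMod (2 * (n + 3))) = _
  rw [Nat.card_zmod, mul_comm]

theorem equiv_ann_mob (n : ℕ) : Nonempty (Ann n ≃ Mob n) := by
  have h : Nat.card (Ann n) = Nat.card (Mob n) := by
    rw [card_mob]
    change Nat.card (ZMod (n + 3) × ZMod 2) = _
    rw [Nat.card_prod, Nat.card_zmod, Nat.card_zmod]
  exact ⟨(Finite.equivFin (Ann n)).trans ((finCongr h).trans (Finite.equivFin (Mob n)).symm)⟩

/-- **There is no first-order sentence that holds in a finite poset if and only if the poset is a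
down-poset.** -/
theorem result : ¬ ∃ φ : Language.order.Sentence, ∀ (P : Type) [PartialOrder P] [Finite P],
    Holds P φ ↔ IsDownPoset.{0, v} P := by
  rintro ⟨φ, hφ⟩
  have hU : ((hyperfilter ℕ : Ultrafilter ℕ) : Filter ℕ) ≤ atTop := by
    rw [← Nat.cofinite_eq_atTop]
    exact hyperfilter_le_cofinite
  obtain ⟨e, he⟩ := X225.Dp.exists_equiv (X := X225.Dp.XU (hyperfilter ℕ) Ann)
    (Y := X225.Dp.XU (hyperfilter ℕ) Mob)
    (X225.Dp.uncountable_XU _ hU card_ann)
    (X225.Dp.free_XU _ fun g hg => hU (free_ann g hg))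
    (X225.Dp.free_XU _ fun g hg => hU (free_mob g hg))
    (X225.Dp.equiv_XU _ equiv_ann_mob)
  have h := X225.Dp.sentence_iff _ e he φ
  have h1 : ∀ n, Finite (X225.Dp.Pt (Ann n)) := fun n => X225.Dp.Pt.finite_pt
  have h2 : ∀ n, Finite (X225.Dp.Pt (Mob n)) := fun n => X225.Dp.Pt.finite_pt
  have h3 : ∀ n, Holds (X225.Dp.Pt (Ann n)) φ := fun n =>
    (hφ _).2 (isDownPoset_of_enough _ (enough_ann n))
  have h4 : ∀ n, ¬ Holds (X225.Dp.Pt (Mob n)) φ := fun n h =>
    not_enough_mob n (enough_of_isDownPoset _ ((hφ _).1 h))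
  obtain ⟨n, hn⟩ := (h.1 (Eventually.of_forall h3)).exists
  exact h4 n hn

end Pool.Agent.Results.MP_bbe6b0_lc.NotFirstOrder
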